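import Pool.Agent.W841.PK.Num

/-!
# PK-KAP: Taylor bound for the weights (MP_350a25_pr)
-/

set_option autoImplicit false

namespace Pool.Agent.W932.PK.Kap

open W841.PK MeasureTheory

theorem hat_sum (u : ℝ) (B : ℤ → ℝ) (s : Finset ℤ) :
    ∑ m ∈ s, max 0 (1 - |u - m|) * B m =
      (if ⌊u⌋ ∈ s then (1 - Int.fract u) * B ⌊u⌋ else 0) +
      (if ⌊u⌋ + 1 ∈ s then Int.fract u * B (⌊u⌋ + 1) else 0) := by
  have h : ∀ m : ℤ, max 0 (1 - |u - m|) * B m =
      (if ⌊u⌋ = m then (1 - Int.fract u) * B m else 0) +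
      (if ⌊u⌋ + 1 = m then Int.fract u * B m else 0) := by
    intro m
    have f0 := Int.fract_nonneg u
    have f1 := Int.fract_lt_one u
    have f2 : u = ⌊u⌋ + Int.fract u := (Int.floor_add_fract u).symm
    rcases (show m ≤ ⌊u⌋ - 1 ∨ m = ⌊u⌋ ∨ m = ⌊u⌋ + 1 ∨ ⌊u⌋ + 2 ≤ m by omega) with g | g | g | g
    · rw [if_neg (by omega), if_neg (by omega)]
      have g' : (m : ℝ) ≤ ⌊u⌋ - 1 := by exact_mod_cast g
      rw [max_eq_left]
      · ring
      · have : 1 ≤ |u - m| := le_trans (by linarith) (le_abs_self _)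
        linarith
    · rw [if_pos g.symm, if_neg (by omega), g]
      have e : u - (⌊u⌋ : ℝ) = Int.fract u := rfl
      rw [e, abs_of_nonneg f0, max_eq_right (by linarith), add_zero]
    · rw [if_neg (by omega), if_pos g.symm, g]
      have e : u - ((⌊u⌋ + 1 : ℤ) : ℝ) = Int.fract u - 1 := by
        push_cast
        linarith
      rw [e, abs_of_nonpos (by linarith), max_eq_right (by linarith)]
      ring
    · rw [if_neg (by omega), if_neg (by omega)]
      have g' : (⌊u⌋ : ℝ) + 2 ≤ m := by exact_mod_cast g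
      rw [max_eq_left]
      · ring
      · have : 1 ≤ |u - m| := le_trans (by linarith) (neg_le_abs _)
        linarith
  simp only [h, Finset.sum_add_distrib, Finset.sum_ite_eq]

theorem gd_cont : Continuous gd := by
  unfold gd
  fun_prop

theorem gd_deriv (x : ℝ) : HasDerivAt gd (-x * gd x) x := by
  have h1 : HasDerivAt (fun x : ℝ => -x ^ 2 / 2) (-x) x := by
    have := ((hasDerivAt_pow 2 x).neg).div_const 2
    exact this.congr_deriv (by norm_num; ring)
  have h2 := (h1.exp).div_const (√(2 * Real.pi))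
  exact h2.congr_deriv (by unfold gd; ring)

theorem gd_deriv2 (x : ℝ) : HasDerivAt (fun x => -x * gd x) ((x ^ 2 - 1) * gd x) x := by
  have h := (hasDerivAt_neg x).mul (gd_deriv x)
  exact h.congr_deriv (by ring)

theorem gd_deriv3 (x : ℝ) :
    HasDerivAt (fun x => (x ^ 2 - 1) * gd x) ((3 * x - x ^ 3) * gd x) x := by
  have h := ((hasDerivAt_pow 2 x).sub_const 1).mul (gd_deriv x)
  exact h.congr_deriv (by norm_num; ring)

theorem gd_deriv4 (x : ℝ) :
    HasDerivAt (fun x => (3 * x - x ^ 3) * gd x) ((x ^ 4 - 6 * x ^ 2 + 3) * gd x) x := by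
  have h := (((hasDerivAt_id x).const_mul 3).sub (hasDerivAt_pow 3 x)).mul (gd_deriv x)
  exact h.congr_deriv (by simp only [id, Pi.sub_apply]; norm_num; ring)

theorem gd4_bound (hg : S_Gauss) (x : ℝ) : |(x ^ 4 - 6 * x ^ 2 + 3) * gd x| ≤ 6 / 5 := by
  have h0 : gd x = Real.exp (-(x ^ 2 / 2)) * gd 0 := by
    unfold gd
    have : -x ^ 2 / 2 = -(x ^ 2 / 2) := by ring
    rw [this]
    norm_num
    try ring
  obtain ⟨g1, g2⟩ := hg.2.1 0
  have hu : 0 ≤ x ^ 2 / 2 := by positivity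
  have he : 1 + x ^ 2 / 2 + (x ^ 2 / 2) ^ 2 / 2 + (x ^ 2 / 2) ^ 3 / 6 ≤ Real.exp (x ^ 2 / 2) := by
    have := Real.sum_le_exp_of_nonneg hu 4
    simp [Finset.sum_range_succ, Nat.factorial] at this
    linarith
  set u := x ^ 2 / 2 with hudef
  have hx2 : x ^ 2 = 2 * u := by rw [hudef]; ring
  have hx4 : x ^ 4 = 4 * u ^ 2 := by rw [hudef]; ring
  rw [hx2, hx4, h0, abs_mul, abs_mul, abs_of_pos g1, abs_of_pos (Real.exp_pos _)]
  have hp : |4 * u ^ 2 - 6 * (2 * u) + 3| ≤ 3 * Real.exp u := by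
    rw [abs_le]
    constructor
    · nlinarith [sq_nonneg (u - 9 / 11), pow_nonneg hu 3, pow_nonneg hu 2]
    · nlinarith [mul_nonneg hu (sq_nonneg (u - 5 / 2)), pow_nonneg hu 3, pow_nonneg hu 2]
  have hq : |4 * u ^ 2 - 6 * (2 * u) + 3| * Real.exp (-u) ≤ 3 := by
    calc |4 * u ^ 2 - 6 * (2 * u) + 3| * Real.exp (-u) ≤ 3 * Real.exp u * Real.exp (-u) :=
          mul_le_mul_of_nonneg_right hp (Real.exp_pos _).le
      _ = 3 := by rw [mul_assoc, ← Real.exp_add]; simp
  calc |4 * u ^ 2 - 6 * (2 * u) + 3| * (Real.exp (-u) * gd 0)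
      = (|4 * u ^ 2 - 6 * (2 * u) + 3| * Real.exp (-u)) * gd 0 := by ring
    _ ≤ 3 * (2 / 5) := mul_le_mul hq g2 g1.le (by norm_num)
    _ = 6 / 5 := by norm_num

theorem bd (f f' B B' : ℝ → ℝ) (hf : ∀ x, HasDerivAt f (f' x) x)
    (hB : ∀ x, HasDerivAt B (B' x) x) (h0 : |f 0| ≤ B 0) (hb : ∀ x, 0 ≤ x → |f' x| ≤ B' x) :
    ∀ x, 0 ≤ x → |f x| ≤ B x := by
  intro x hx
  have := image_norm_le_of_norm_deriv_right_le_deriv_boundary (f := f) (f' := f') (a := 0) (b := x)
    (fun y _ => (hf y).continuousAt.continuousWithinAt)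
    (fun y _ => (hf y).hasDerivWithinAt) (B := B) (B' := B') h0 hB
    (fun y hy => hb y hy.1) (x := x) ⟨hx, le_rfl⟩
  exact this

theorem shift (f f' : ℝ → ℝ) (hf : ∀ x, HasDerivAt f (f' x) x) (a x : ℝ) :
    HasDerivAt (fun h => f (a + h)) (f' (a + x)) x ∧
    HasDerivAt (fun h => f (a - h)) (-f' (a - x)) x := by
  constructor
  · exact (hf (a + x)).comp_const_add a x
  · exact (hf (a - x)).comp_const_sub a x

theorem taylor (hg : S_Gauss) (a h : ℝ) (hh : 0 ≤ h) :
    |gd (a + h) + gd (a - h) - 2 * gd a - (a ^ 2 - 1) * gd a * h ^ 2| ≤ 6 / 5 * h ^ 4 / 12 := by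
  -- third derivative
  have d3 : ∀ x, 0 ≤ x → |(3 * (a + x) - (a + x) ^ 3) * gd (a + x) -
      (3 * (a - x) - (a - x) ^ 3) * gd (a - x)| ≤ 12 / 5 * x := by
    apply bd _ (fun x => ((a + x) ^ 4 - 6 * (a + x) ^ 2 + 3) * gd (a + x) +
      ((a - x) ^ 4 - 6 * (a - x) ^ 2 + 3) * gd (a - x)) (fun x => 12 / 5 * x) (fun _ => 12 / 5)
    · intro x
      obtain ⟨s1, s2⟩ := shift _ _ gd_deriv4 a x
      exact (s1.sub s2).congr_deriv (by ring)
    · intro x
      exact ((hasDerivAt_id x).const_mul (12 / 5 : ℝ)).congr_deriv (by ring)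
    · simp
    · intro x _
      refine (abs_add_le _ _).trans ?_
      have := gd4_bound hg (a + x)
      have := gd4_bound hg (a - x)
      linarith
  have d2 : ∀ x, 0 ≤ x → |((a + x) ^ 2 - 1) * gd (a + x) + ((a - x) ^ 2 - 1) * gd (a - x) -
      2 * ((a ^ 2 - 1) * gd a)| ≤ 6 / 5 * x ^ 2 := by
    apply bd _ (fun x => (3 * (a + x) - (a + x) ^ 3) * gd (a + x) -
      (3 * (a - x) - (a - x) ^ 3) * gd (a - x)) (fun x => 6 / 5 * x ^ 2) (fun x => 12 / 5 * x)
    · intro x
      obtain ⟨s1, s2⟩ := shift _ _ gd_deriv3 a x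
      exact ((s1.add s2).sub_const (2 * ((a ^ 2 - 1) * gd a))).congr_deriv (by ring)
    · intro x
      exact ((hasDerivAt_pow 2 x).const_mul (6 / 5 : ℝ)).congr_deriv (by norm_num; ring)
    · apply le_of_eq
      have : ((a + 0) ^ 2 - 1) * gd (a + 0) + ((a - 0) ^ 2 - 1) * gd (a - 0) -
        2 * ((a ^ 2 - 1) * gd a) = 0 := by
        rw [add_zero, sub_zero]
        ring
      rw [this]
      norm_num
    · exact d3
  have d1 : ∀ x, 0 ≤ x → |-(a + x) * gd (a + x) - -(a - x) * gd (a - x) -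
      2 * ((a ^ 2 - 1) * gd a) * x| ≤ 2 / 5 * x ^ 3 := by
    apply bd _ (fun x => ((a + x) ^ 2 - 1) * gd (a + x) + ((a - x) ^ 2 - 1) * gd (a - x) -
      2 * ((a ^ 2 - 1) * gd a)) (fun x => 2 / 5 * x ^ 3) (fun x => 6 / 5 * x ^ 2)
    · intro x
      obtain ⟨s1, s2⟩ := shift _ _ gd_deriv2 a x
      exact ((s1.sub s2).sub ((hasDerivAt_id x).const_mul (2 * ((a ^ 2 - 1) * gd a)))).congr_deriv
        (by ring)
    · intro x
      exact ((hasDerivAt_pow 3 x).const_mul (2 / 5 : ℝ)).congr_deriv (by norm_num; ring)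
    · simp
    · exact d2
  have d0 : ∀ x, 0 ≤ x → |gd (a + x) + gd (a - x) - 2 * gd a - (a ^ 2 - 1) * gd a * x ^ 2| ≤
      1 / 10 * x ^ 4 := by
    apply bd _ (fun x => -(a + x) * gd (a + x) - -(a - x) * gd (a - x) -
      2 * ((a ^ 2 - 1) * gd a) * x) (fun x => 1 / 10 * x ^ 4) (fun x => 2 / 5 * x ^ 3)
    · intro x
      obtain ⟨s1, s2⟩ := shift _ _ gd_deriv a x
      exact (((s1.add s2).sub_const (2 * gd a)).sub
        ((hasDerivAt_pow 2 x).const_mul ((a ^ 2 - 1) * gd a))).congr_deriv (by norm_num; ring)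
    · intro x
      exact ((hasDerivAt_pow 4 x).const_mul (1 / 10 : ℝ)).congr_deriv (by norm_num; ring)
    · apply le_of_eq
      have : gd (a + 0) + gd (a - 0) - 2 * gd a - (a ^ 2 - 1) * gd a * 0 ^ 2 = 0 := by
        rw [add_zero, sub_zero]
        ring
      rw [this]
      norm_num
    · exact d1
  have := d0 h hh
  linarith

theorem kap_eq (m : ℤ) : kap m = 1 / 32 *
    ∫ s in (0 : ℝ)..1, (1 - s) * (gd ((m : ℝ) / 32 + s / 32) + gd ((m : ℝ) / 32 - s / 32)) := by
  unfold kap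
  set g : ℝ → ℝ := fun t => max 0 (1 - |t|) * gd ((m : ℝ) / 32 + t / 32) with hgdef
  have hgc : Continuous g := by
    rw [hgdef]
    have := gd_cont
    fun_prop
  have e1 : ∀ x : ℝ, max 0 (1 - |32 * x - (m : ℝ)|) * gd x = g (32 * x - m) := by
    intro x
    simp only [hgdef]
    congr 2
    ring
  simp only [e1]
  have e2 : ∫ x : ℝ, g (32 * x - m) = 1 / 32 * ∫ t, g t := by
    have h1 := integral_sub_right_eq_self (μ := volume) g (m : ℝ)
    have h2 := Measure.integral_comp_mul_left (fun t => g (t - m)) (32 : ℝ)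
    rw [h2, h1]
    norm_num
  rw [e2]
  congr 1
  have e3 : ∫ t, g t = ∫ t in (-1 : ℝ)..1, g t := by
    rw [intervalIntegral.integral_of_le (by norm_num)]
    symm
    apply setIntegral_eq_integral_of_forall_compl_eq_zero
    intro t ht
    simp only [hgdef]
    rw [max_eq_left, zero_mul]
    simp only [Set.mem_Ioc, not_and_or, not_lt, not_le] at ht
    rcases ht with ht | ht
    · have := neg_le_abs t
      linarith
    · have := le_abs_self t
      linarith
  rw [e3, ← intervalIntegral.integral_add_adjacent_intervals (b := (0 : ℝ))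
    (hgc.intervalIntegrable _ _) (hgc.intervalIntegrable _ _)]
  have e4 : ∫ t in (-1 : ℝ)..0, g t = ∫ t in (0 : ℝ)..1, g (-t) := by
    rw [intervalIntegral.integral_comp_neg]
    simp
  have hgn : Continuous (fun t => g (-t)) := hgc.comp continuous_neg
  rw [e4, ← intervalIntegral.integral_add (hgn.intervalIntegrable _ _)
    (hgc.intervalIntegrable _ _)]
  apply intervalIntegral.integral_congr
  intro t ht
  rw [Set.uIcc_of_le (by norm_num)] at ht
  obtain ⟨h1, h2⟩ := ht
  simp only [hgdef, abs_neg, abs_of_nonneg h1]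
  rw [max_eq_right (by linarith)]
  have : (m : ℝ) / 32 + -t / 32 = (m : ℝ) / 32 - t / 32 := by ring
  rw [this]
  ring

theorem kap_taylor (hg : S_Gauss) (m : ℤ) :
    |kap m - gd (m / 32) / 32 * (1 + ((m / 32 : ℝ) ^ 2 - 1) / (12 * 32 ^ 2))| ≤
    1 / (300 * 32 ^ 5) := by
  rw [kap_eq]
  set a : ℝ := (m : ℝ) / 32 with ha
  have hgc := gd_cont
  have hmain : ∫ s in (0 : ℝ)..1, (1 - s) * (2 * gd a + (a ^ 2 - 1) * gd a * (s / 32) ^ 2) =
      gd a + (a ^ 2 - 1) * gd a / (12 * 32 ^ 2) := by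
    have e : ∀ s : ℝ, (1 - s) * (2 * gd a + (a ^ 2 - 1) * gd a * (s / 32) ^ 2) =
        2 * gd a * (1 - s) + (a ^ 2 - 1) * gd a / 32 ^ 2 * (s ^ 2 - s ^ 3) := by
      intro s
      ring
    simp only [e]
    rw [intervalIntegral.integral_add (by apply Continuous.intervalIntegrable; fun_prop)
      (by apply Continuous.intervalIntegrable; fun_prop), intervalIntegral.integral_const_mul,
      intervalIntegral.integral_const_mul, intervalIntegral.integral_sub
      (by apply Continuous.intervalIntegrable; fun_prop)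
      (by apply Continuous.intervalIntegrable; fun_prop), intervalIntegral.integral_sub
      (by apply Continuous.intervalIntegrable; fun_prop)
      (by apply Continuous.intervalIntegrable; fun_prop)]
    simp
    ring
  have herr : ∫ s in (0 : ℝ)..1, (1 - s) * (6 / 5 * (s / 32) ^ 4 / 12) = 1 / (300 * 32 ^ 4) := by
    have e : ∀ s : ℝ, (1 - s) * (6 / 5 * (s / 32) ^ 4 / 12) = 1 / (10 * 32 ^ 4) * (s ^ 4 - s ^ 5) := by
      intro s
      ring
    simp only [e]
    rw [intervalIntegral.integral_const_mul, intervalIntegral.integral_sub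
      (by apply Continuous.intervalIntegrable; fun_prop)
      (by apply Continuous.intervalIntegrable; fun_prop)]
    simp
    norm_num
  have hdiff : |(∫ s in (0 : ℝ)..1, (1 - s) * (gd (a + s / 32) + gd (a - s / 32))) -
      (gd a + (a ^ 2 - 1) * gd a / (12 * 32 ^ 2))| ≤ 1 / (300 * 32 ^ 4) := by
    rw [← hmain, ← intervalIntegral.integral_sub (by apply Continuous.intervalIntegrable; fun_prop)
      (by apply Continuous.intervalIntegrable; fun_prop), ← herr]
    apply intervalIntegral.abs_integral_le_integral_abs (by norm_num) |>.trans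
    apply intervalIntegral.integral_mono_on (by norm_num)
      (by apply Continuous.intervalIntegrable; fun_prop)
      (by apply Continuous.intervalIntegrable; fun_prop)
    intro s hs
    have h1 : (1 - s) * (gd (a + s / 32) + gd (a - s / 32)) -
        (1 - s) * (2 * gd a + (a ^ 2 - 1) * gd a * (s / 32) ^ 2) =
        (1 - s) * (gd (a + s / 32) + gd (a - s / 32) - 2 * gd a -
          (a ^ 2 - 1) * gd a * (s / 32) ^ 2) := by ring
    rw [h1, abs_mul, abs_of_nonneg (by linarith [hs.2] : (0 : ℝ) ≤ 1 - s)]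
    apply mul_le_mul_of_nonneg_left _ (by linarith [hs.2])
    exact taylor hg a (s / 32) (by linarith [hs.1])
  have e : 1 / 32 * (∫ s in (0 : ℝ)..1, (1 - s) * (gd (a + s / 32) + gd (a - s / 32))) -
      gd a / 32 * (1 + (a ^ 2 - 1) / (12 * 32 ^ 2)) =
      1 / 32 * ((∫ s in (0 : ℝ)..1, (1 - s) * (gd (a + s / 32) + gd (a - s / 32))) -
      (gd a + (a ^ 2 - 1) * gd a / (12 * 32 ^ 2))) := by ring
  rw [e, abs_mul, abs_of_pos (by norm_num : (0 : ℝ) < 1 / 32)]
  have : (1 : ℝ) / (300 * 32 ^ 5) = 1 / 32 * (1 / (300 * 32 ^ 4)) := by norm_num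
  rw [this]
  exact mul_le_mul_of_nonneg_left hdiff (by norm_num)

theorem hat_integrable (hg : S_Gauss) (m : ℤ) :
    Integrable (fun x => max 0 (1 - |32 * x - (m : ℝ)|) * gd x) := by
  obtain ⟨-, -, -, -, -, -, -, hi, -⟩ := hg
  apply Integrable.bdd_mul hi (c := 1)
  · apply Continuous.aestronglyMeasurable
    fun_prop
  · filter_upwards with x
    rw [Real.norm_eq_abs, abs_of_nonneg (le_max_left _ _)]
    apply max_le (by norm_num)
    linarith [abs_nonneg (32 * x - (m : ℝ))]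

theorem kapthm (hg : S_Gauss) : S_Kap := by
  have hpos : ∀ x, 0 ≤ gd x := fun x => (hg.2.1 x).1.le
  refine ⟨kap_taylor hg, ?_, ?_⟩
  · intro m
    unfold kap
    apply integral_nonneg
    intro x
    exact mul_nonneg (le_max_left _ _) (hpos x)
  · unfold kap
    rw [← integral_finsetSum _ (fun m _ => hat_integrable hg m)]
    have hi := hg.2.2.2.2.2.2.2.1
    have h1 := hg.2.2.2.2.2.2.2.2.1
    refine le_trans ?_ h1.le
    apply integral_mono (integrable_finsetSum _ (fun m _ => hat_integrable hg m)) hi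
    intro x
    simp only
    rw [← Finset.sum_mul]
    have h2 := hat_sum (32 * x) (fun _ => 1) (Finset.Icc (-224) 224)
    simp only [mul_one] at h2
    rw [h2]
    have f0 := Int.fract_nonneg (32 * x)
    have f1 := Int.fract_lt_one (32 * x)
    have h3 : (if ⌊32 * x⌋ ∈ Finset.Icc (-224 : ℤ) 224 then (1 - Int.fract (32 * x)) else 0) +
      (if ⌊32 * x⌋ + 1 ∈ Finset.Icc (-224 : ℤ) 224 then Int.fract (32 * x) else 0) ≤ 1 := by
      split_ifs <;> linarith
    calc _ ≤ 1 * gd x := mul_le_mul_of_nonneg_right h3 (hpos x)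
      _ = gd x := one_mul _

end Pool.Agent.W932.PK.Kap
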