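import Pool.Agent.W841.PK.Num
import Pool.Agent.W932.PK.Kap

/-!
# PK-GRID: heat flow at grid points (MP_350a25_pr)
-/

set_option autoImplicit false

namespace Pool.Agent.W932.PK.Grid

open W841.PK MeasureTheory Pool.Agent.W932.PK.Kap

theorem gd_even (x : ℝ) : gd (-x) = gd x := by
  unfold gd
  rw [neg_sq]

theorem kap_neg (m : ℤ) : kap (-m) = kap m := by
  unfold kap
  rw [← integral_neg_eq_self]
  congr 1
  funext x
  rw [gd_even]
  congr 3
  rw [← abs_neg]
  congr 1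
  push_cast
  ring

theorem pl_meas (δ : ℝ) (A : ℤ → ℝ) : Measurable (pl δ A) := by
  unfold pl
  have hA : Measurable A := measurable_from_top
  have hf : Measurable (fun y : ℝ => ⌊y / δ⌋) := Int.measurable_floor.comp (measurable_id.div_const δ)
  have h1 : Measurable (fun y : ℝ => A ⌊y / δ⌋) := hA.comp hf
  have h2 : Measurable (fun y : ℝ => A (⌊y / δ⌋ + 1)) :=
    hA.comp ((measurable_from_top (f := fun k : ℤ => k + 1)).comp hf)
  have h3 : Measurable (fun y : ℝ => ((⌊y / δ⌋ : ℤ) : ℝ)) :=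
    (measurable_from_top (f := fun k : ℤ => (k : ℝ))).comp hf
  exact h1.add (((measurable_id.div_const δ).sub h3).mul (h2.sub h1))

theorem pl_eq {δ : ℝ} (hδ : 0 < δ) (A : ℤ → ℝ) (l : ℤ) (u : ℝ) :
    pl δ A ((l + u) * δ) = (1 - Int.fract u) * A (l + ⌊u⌋) + Int.fract u * A (l + (⌊u⌋ + 1)) := by
  unfold pl
  have h1 : ((l : ℝ) + u) * δ / δ = l + u := by field_simp
  have h2 : ⌊(l : ℝ) + u⌋ = l + ⌊u⌋ := Int.floor_intCast_add l u
  rw [h1, h2]
  have h3 : (l : ℝ) + u - ((l + ⌊u⌋ : ℤ) : ℝ) = Int.fract u := by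
    push_cast
    unfold Int.fract
    ring
  rw [h3, add_assoc]
  ring

theorem pl_bd {δ : ℝ} (hδ : 0 < δ) {A : ℤ → ℝ} (hA : ∀ i, 0 ≤ A i ∧ A i ≤ 1) (y : ℝ) :
    0 ≤ pl δ A y ∧ pl δ A y ≤ 1 := by
  have e : y = ((0 : ℤ) + y / δ) * δ := by
    push_cast
    field_simp
    ring
  rw [e, pl_eq hδ]
  have f0 := Int.fract_nonneg (y / δ)
  have f1 := Int.fract_lt_one (y / δ)
  obtain ⟨a0, a1⟩ := hA (0 + ⌊y / δ⌋)
  obtain ⟨b0, b1⟩ := hA (0 + (⌊y / δ⌋ + 1))
  constructor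
  · have := mul_nonneg f0 b0
    have := mul_nonneg (sub_nonneg.mpr f1.le) a0
    linarith
  · nlinarith

theorem pl_int (hg : S_Gauss) {δ : ℝ} (hδ : 0 < δ) {A : ℤ → ℝ} (hA : ∀ i, 0 ≤ A i ∧ A i ≤ 1)
    (a b : ℝ) : Integrable (fun x => pl δ A (a + b * x) * gd x) := by
  have hi := hg.2.2.2.2.2.2.2.1
  apply Integrable.bdd_mul hi (c := 1)
  · exact ((pl_meas δ A).comp (measurable_const.add (measurable_const.mul measurable_id))).aestronglyMeasurable
  · filter_upwards with x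
    rw [Real.norm_eq_abs, abs_of_nonneg (pl_bd hδ hA _).1]
    exact (pl_bd hδ hA _).2

theorem sum_eq (hg : S_Gauss) (A : ℤ → ℝ) (l : ℤ) :
    ∑ m ∈ Finset.Icc (-224 : ℤ) 224, kap m * A (l - m) =
    ∫ x, (∑ j ∈ Finset.Icc (-224 : ℤ) 224, max 0 (1 - |32 * x - (j : ℝ)|) * A (l + j)) * gd x := by
  have e1 : ∑ m ∈ Finset.Icc (-224 : ℤ) 224, kap m * A (l - m) =
      ∑ j ∈ Finset.Icc (-224 : ℤ) 224, kap j * A (l + j) := by
    apply Finset.sum_nbij' (fun m => -m) (fun m => -m)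
    · intro m hm
      rw [Finset.mem_Icc] at hm ⊢
      omega
    · intro m hm
      rw [Finset.mem_Icc] at hm ⊢
      omega
    · intro m _
      ring
    · intro m _
      ring
    · intro m _
      rw [kap_neg, sub_eq_add_neg]
  rw [e1]
  have e2 : ∀ x : ℝ, (∑ j ∈ Finset.Icc (-224 : ℤ) 224, max 0 (1 - |32 * x - (j : ℝ)|) * A (l + j)) *
      gd x = ∑ j ∈ Finset.Icc (-224 : ℤ) 224, (max 0 (1 - |32 * x - (j : ℝ)|) * gd x) * A (l + j) := by
    intro x
    rw [Finset.sum_mul]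
    apply Finset.sum_congr rfl
    intro j _
    ring
  simp only [e2]
  rw [integral_finsetSum _ (fun j _ => (hat_integrable hg j).mul_const _)]
  apply Finset.sum_congr rfl
  intro j _
  rw [integral_mul_const]
  rfl

theorem sum_int (hg : S_Gauss) (A : ℤ → ℝ) (l : ℤ) : Integrable (fun x =>
    (∑ j ∈ Finset.Icc (-224 : ℤ) 224, max 0 (1 - |32 * x - (j : ℝ)|) * A (l + j)) * gd x) := by
  have e2 : ∀ x : ℝ, (∑ j ∈ Finset.Icc (-224 : ℤ) 224, max 0 (1 - |32 * x - (j : ℝ)|) * A (l + j)) *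
      gd x = ∑ j ∈ Finset.Icc (-224 : ℤ) 224, (max 0 (1 - |32 * x - (j : ℝ)|) * gd x) * A (l + j) := by
    intro x
    rw [Finset.sum_mul]
    apply Finset.sum_congr rfl
    intro j _
    ring
  simp only [e2]
  exact integrable_finsetSum _ (fun j _ => (hat_integrable hg j).mul_const _)

theorem heat_eq {δ : ℝ} (hδ : 0 < δ) (A : ℤ → ℝ) (l : ℤ) :
    heat (pl δ A) ((32 * δ) ^ 2) (l * δ) = ∫ x, pl δ A ((l + 32 * x) * δ) * gd x := by
  unfold heat
  rw [Real.sqrt_sq (by linarith)]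
  congr 1
  funext x
  congr 2
  ring

theorem heat_int (hg : S_Gauss) {δ : ℝ} (hδ : 0 < δ) {A : ℤ → ℝ} (hA : ∀ i, 0 ≤ A i ∧ A i ≤ 1)
    (l : ℤ) : Integrable (fun x => pl δ A ((l + 32 * x) * δ) * gd x) := by
  have := pl_int hg hδ hA (l * δ) (32 * δ)
  have e : ∀ x : ℝ, (l : ℝ) * δ + 32 * δ * x = (l + 32 * x) * δ := by
    intro x
    ring
  simpa only [e] using this

theorem gridlow (_hp : S_Pl) (hg : S_Gauss) : S_GridLow := by
  intro δ A l hδ hA
  rw [sum_eq hg, heat_eq hδ]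
  apply integral_mono (sum_int hg A l) (heat_int hg hδ hA l)
  intro x
  simp only
  apply mul_le_mul_of_nonneg_right _ (hg.2.1 x).1.le
  rw [hat_sum (32 * x) (fun j => A (l + j)), pl_eq hδ]
  have f0 := Int.fract_nonneg (32 * x)
  have f1 := Int.fract_lt_one (32 * x)
  have g0 := mul_nonneg (sub_nonneg.mpr f1.le) (hA (l + ⌊32 * x⌋)).1
  have g1 := mul_nonneg f0 (hA (l + (⌊32 * x⌋ + 1))).1
  split_ifs <;> linarith

theorem gridup (_hp : S_Pl) (hg : S_Gauss) (ht : S_Tail7) : S_GridUp := by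
  intro δ A l hδ hA
  rw [sum_eq hg, heat_eq hδ]
  have hi := hg.2.2.2.2.2.2.2.1
  have h1 := hg.2.2.2.2.2.2.2.2.1
  have hm7 : Ph (-7) = 1 - Ph 7 := hg.2.2.1 7
  have hI1 : Integrable ((Set.Iic (-7 : ℝ)).indicator gd) := hi.indicator measurableSet_Iic
  have hI2 : Integrable ((Set.Ioi (7 : ℝ)).indicator gd) := hi.indicator measurableSet_Ioi
  have hI : Integrable (fun x => (Set.Iic (-7 : ℝ)).indicator gd x +
    (Set.Ioi (7 : ℝ)).indicator gd x) := hI1.add hI2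
  have e1 : ∫ x, (Set.Iic (-7 : ℝ)).indicator gd x = Ph (-7) := by
    rw [integral_indicator measurableSet_Iic]
    rfl
  have e2 : ∫ x, (Set.Ioi (7 : ℝ)).indicator gd x = 1 - Ph 7 := by
    rw [integral_indicator measurableSet_Ioi]
    have h := intervalIntegral.integral_Iic_add_Ioi (b := (7 : ℝ)) hi.integrableOn hi.integrableOn
    rw [h1] at h
    have : Ph 7 = ∫ x in Set.Iic (7 : ℝ), gd x := rfl
    linarith
  have key : ∀ x : ℝ, pl δ A ((l + 32 * x) * δ) * gd x ≤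
      (∑ j ∈ Finset.Icc (-224 : ℤ) 224, max 0 (1 - |32 * x - (j : ℝ)|) * A (l + j)) * gd x +
      ((Set.Iic (-7 : ℝ)).indicator gd x + (Set.Ioi (7 : ℝ)).indicator gd x) := by
    intro x
    have hpos := (hg.2.1 x).1
    have f0 := Int.fract_nonneg (32 * x)
    have f1 := Int.fract_lt_one (32 * x)
    have g0 := mul_nonneg (sub_nonneg.mpr f1.le) (hA (l + ⌊32 * x⌋)).1
    have g1 := mul_nonneg f0 (hA (l + (⌊32 * x⌋ + 1))).1
    have hsum0 : 0 ≤ (∑ j ∈ Finset.Icc (-224 : ℤ) 224, max 0 (1 - |32 * x - (j : ℝ)|) *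
        A (l + j)) := Finset.sum_nonneg (fun j _ => mul_nonneg (le_max_left _ _) (hA _).1)
    have hi1 : 0 ≤ (Set.Iic (-7 : ℝ)).indicator gd x :=
      Set.indicator_nonneg (fun y _ => (hg.2.1 y).1.le) x
    have hi2 : 0 ≤ (Set.Ioi (7 : ℝ)).indicator gd x :=
      Set.indicator_nonneg (fun y _ => (hg.2.1 y).1.le) x
    have hpl := (pl_bd hδ hA ((l + 32 * x) * δ)).2
    have hpg : pl δ A ((l + 32 * x) * δ) * gd x ≤ gd x := by
      calc _ ≤ 1 * gd x := mul_le_mul_of_nonneg_right hpl hpos.le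
        _ = gd x := one_mul _
    have hsg := mul_nonneg hsum0 hpos.le
    rcases le_or_gt x (-7) with hx | hx
    · have : (Set.Iic (-7 : ℝ)).indicator gd x = gd x := Set.indicator_of_mem (Set.mem_Iic.mpr hx) _
      linarith
    rcases lt_or_ge 7 x with hx' | hx'
    · have : (Set.Ioi (7 : ℝ)).indicator gd x = gd x := Set.indicator_of_mem (Set.mem_Ioi.mpr hx') _
      linarith
    · have hle : pl δ A ((l + 32 * x) * δ) ≤ ∑ j ∈ Finset.Icc (-224 : ℤ) 224,
          max 0 (1 - |32 * x - (j : ℝ)|) * A (l + j) := by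
        rw [hat_sum (32 * x) (fun j => A (l + j)), pl_eq hδ]
        have k1 : -224 ≤ ⌊32 * x⌋ := by
          rw [Int.le_floor]
          push_cast
          linarith
        have k2 : ⌊32 * x⌋ ≤ 224 := by
          have : ⌊32 * x⌋ < 225 := by
            rw [Int.floor_lt]
            push_cast
            linarith
          omega
        rw [if_pos (Finset.mem_Icc.mpr ⟨k1, k2⟩)]
        rcases (show ⌊32 * x⌋ + 1 ≤ 224 ∨ ⌊32 * x⌋ = 224 by omega) with h | h
        · rw [if_pos (Finset.mem_Icc.mpr ⟨by omega, h⟩)]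
        · have hfr : Int.fract (32 * x) = 0 := by
            have h3 : Int.fract (32 * x) = 32 * x - (⌊32 * x⌋ : ℝ) := rfl
            rw [h] at h3
            push_cast at h3
            linarith
          rw [hfr]
          split_ifs <;> simp
      have := mul_le_mul_of_nonneg_right hle hpos.le
      linarith
  have hmono := integral_mono (heat_int hg hδ hA l) ((sum_int hg A l).add hI) key
  have e3 : ∫ x, ((∑ j ∈ Finset.Icc (-224 : ℤ) 224, max 0 (1 - |32 * x - (j : ℝ)|) * A (l + j)) *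
      gd x + ((Set.Iic (-7 : ℝ)).indicator gd x + (Set.Ioi (7 : ℝ)).indicator gd x)) =
      (∫ x, (∑ j ∈ Finset.Icc (-224 : ℤ) 224, max 0 (1 - |32 * x - (j : ℝ)|) * A (l + j)) *
      gd x) + (Ph (-7) + (1 - Ph 7)) := by
    rw [integral_add (sum_int hg A l) hI, integral_add hI1 hI2, e1, e2]
  have ht1 := ht.1
  have hm' : ∫ x, pl δ A ((l + 32 * x) * δ) * gd x ≤
      ∫ x, ((∑ j ∈ Finset.Icc (-224 : ℤ) 224, max 0 (1 - |32 * x - (j : ℝ)|) * A (l + j)) *
      gd x + ((Set.Iic (-7 : ℝ)).indicator gd x + (Set.Ioi (7 : ℝ)).indicator gd x)) := hmono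
  rw [e3] at hm'
  linarith

end Pool.Agent.W932.PK.Grid
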