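import Pool.Agent.W841.PK.ChkS
import Pool.Agent.W932.PK.Kap
import Pool.Agent.W932.PK.Grid

/-!
# PK-KAPPOS: mmw <= kap (MP_350a25_pr)
-/

set_option autoImplicit false

namespace Pool.Agent.W932.PK.KapPos

open W841.PK W841.PK.Chk MeasureTheory Pool.Agent.W932.PK.Kap Pool.Agent.W932.PK.Grid

theorem gd_pos (x : ℝ) : 0 < gd x := by
  unfold gd
  positivity

theorem gd_anti {x y : ℝ} (hx : 0 ≤ x) (hxy : x ≤ y) : gd y ≤ gd x := by
  unfold gd
  apply div_le_div_of_nonneg_right _ (Real.sqrt_nonneg _)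
  apply Real.exp_le_exp.mpr
  nlinarith

theorem kap_ge (n : ℤ) (hn : 1 ≤ n) : gd ((n : ℝ) / 32) / 64 ≤ kap n := by
  rw [kap_eq]
  have hn' : (1 : ℝ) ≤ n := by exact_mod_cast hn
  have hc := gd_cont
  have h1 : ∫ s in (0 : ℝ)..1, (1 - s) * gd ((n : ℝ) / 32) = gd ((n : ℝ) / 32) / 2 := by
    rw [intervalIntegral.integral_mul_const, intervalIntegral.integral_sub (by simp) (by simp)]
    simp
    ring
  have h2 : ∫ s in (0 : ℝ)..1, (1 - s) * gd ((n : ℝ) / 32) ≤
      ∫ s in (0 : ℝ)..1, (1 - s) * (gd ((n : ℝ) / 32 + s / 32) + gd ((n : ℝ) / 32 - s / 32)) := by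
    apply intervalIntegral.integral_mono_on (by norm_num)
      (by apply Continuous.intervalIntegrable; fun_prop)
      (by apply Continuous.intervalIntegrable; fun_prop)
    intro s hs
    apply mul_le_mul_of_nonneg_left _ (by linarith [hs.2])
    have h3 : gd ((n : ℝ) / 32) ≤ gd ((n : ℝ) / 32 - s / 32) :=
      gd_anti (by linarith [hs.2]) (by linarith [hs.1])
    have h4 := gd_pos ((n : ℝ) / 32 + s / 32)
    linarith
  rw [h1] at h2
  linarith

theorem kappos_aux (n : ℤ) (h1 : 31 ≤ n) (h2 : n ≤ 224) :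
    max 0 ((((n : ℝ) + 2) / 32) ^ 2 - 1) * gd (max 0 ((n : ℝ) - 2) / 32) / (8 * 32 ^ 3) ≤ kap n := by
  refine le_trans ?_ (kap_ge n (by omega))
  have h1' : (31 : ℝ) ≤ n := by exact_mod_cast h1
  have h2' : (n : ℝ) ≤ 224 := by exact_mod_cast h2
  have hg := gd_pos ((n : ℝ) / 32)
  have e1 : max 0 ((((n : ℝ) + 2) / 32) ^ 2 - 1) ≤ 49 := by
    apply max_le (by norm_num)
    have : (((n : ℝ) + 2) / 32) ^ 2 ≤ ((224 + 2) / 32) ^ 2 := by
      apply pow_le_pow_left₀ (by positivity)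
      linarith
    refine (sub_le_sub_right this 1).trans ?_
    norm_num
  have e2 : gd (max 0 ((n : ℝ) - 2) / 32) ≤ 3 * gd ((n : ℝ) / 32) := by
    rw [max_eq_right (by linarith)]
    have e3 : gd (((n : ℝ) - 2) / 32) = gd ((n : ℝ) / 32) * Real.exp ((n : ℝ) / 32 / 16 - 1 / 512) := by
      unfold gd
      rw [div_mul_eq_mul_div, ← Real.exp_add]
      congr 2
      ring
    have e4 : Real.exp ((n : ℝ) / 32 / 16 - 1 / 512) ≤ 3 := by
      have : Real.exp ((n : ℝ) / 32 / 16 - 1 / 512) ≤ Real.exp 1 :=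
        Real.exp_le_exp.mpr (by linarith)
      have h3 := Real.exp_one_lt_d9
      linarith
    rw [e3]
    nlinarith
  have e0 : 0 ≤ gd (max 0 ((n : ℝ) - 2) / 32) := (gd_pos _).le
  have e5 : max 0 ((((n : ℝ) + 2) / 32) ^ 2 - 1) * gd (max 0 ((n : ℝ) - 2) / 32) ≤
      49 * (3 * gd ((n : ℝ) / 32)) := mul_le_mul e1 e2 e0 (by norm_num)
  have e6 : (49 * (3 * gd ((n : ℝ) / 32))) / (8 * 32 ^ 3) ≤ gd ((n : ℝ) / 32) / 64 := by
    rw [div_le_div_iff₀ (by norm_num) (by norm_num)]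
    nlinarith
  exact (div_le_div_of_nonneg_right e5 (by norm_num)).trans e6

theorem kap_abs (m : ℤ) : kap |m| = kap m := by
  rcases abs_choice m with h | h
  · rw [h]
  · rw [h, kap_neg]

theorem kappos (_hg : S_Gauss) (_hk : S_Kap) : S_KapPos := by
  intro m hm
  have hkap : 0 ≤ kap m := by
    unfold kap
    apply integral_nonneg
    intro x
    exact mul_nonneg (le_max_left _ _) (gd_pos x).le
  rcases le_or_gt |m| 30 with h | h
  · have h' : ((|m| : ℤ) : ℝ) ≤ 30 := by exact_mod_cast h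
    have h0 : (0 : ℝ) ≤ ((|m| : ℤ) : ℝ) := by exact_mod_cast abs_nonneg m
    have e : max 0 ((((|m| : ℤ) + 2 : ℝ) / 32) ^ 2 - 1) = 0 := by
      apply max_eq_left
      have : (((|m| : ℤ) + 2 : ℝ) / 32) ^ 2 ≤ 1 ^ 2 := by
        apply pow_le_pow_left₀ (by positivity)
        linarith
      linarith
    unfold mmw
    rw [e]
    simpa using hkap
  · have := kappos_aux |m| (by omega) hm
    rw [kap_abs] at this
    exact this

end Pool.Agent.W932.PK.KapPos
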