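import Pool.Agent.W841.PK.ChkS

/-!
# PK-STEPF: soundness of the upper step (MP_350a25_pr)
-/

set_option autoImplicit false
set_option maxRecDepth 10000

namespace Pool.Agent.W932.PK.StepF

open W841.PK hiding dg
open W841.PK.Chk Finset

theorem fval_lo {fl fn fN fL fR i : ℕ} (h : i < fl) : fval fl fn fN fL fR i = fL := by
  unfold fval
  rw [if_neg]
  rw [Nat.ble_eq]
  omega

theorem fval_mid {fl fn fN fL fR i : ℕ} (h1 : fl ≤ i) (h2 : i < fl + fn) :
    fval fl fn fN fL fR i = dg fN (i - fl) := by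
  unfold fval
  rw [if_pos (by rw [Nat.ble_eq]; exact h1), if_neg (by rw [Nat.ble_eq]; omega)]

theorem fval_hi {fl fn fN fL fR i : ℕ} (h : fl + fn ≤ i) : fval fl fn fN fL fR i = fR := by
  unfold fval
  rw [if_pos (by rw [Nat.ble_eq]; omega), if_pos (by rw [Nat.ble_eq]; exact h)]

theorem fval_le {fl fn fN fL fR : ℕ} (hI : InvF fl fn fN fL fR) (i : ℕ) :
    fval fl fn fN fL fR i ≤ 2 ^ 40 := by
  have h1 := hI.anti 0 i (Nat.zero_le _)
  rw [fval_lo (i := 0) (by have := hI.lo; omega)] at h1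
  exact h1.trans hI.le

/-- digits of the padded array -/
theorem dg_padF (hd : S_Dig) {fl fn fN fL fR : ℕ} (hI : InvF fl fn fN fL fR) (i : ℕ) :
    dg (padF fn fN fL fR) i = if i < fn + 896 then fval fl fn fN fL fR (fl + i - 448) else 0 := by
  obtain ⟨d1, d2, d3, d4, d5, d6, d7, d8, d9⟩ := hd
  have hlo := hI.lo
  have hfL : fL ≤ 2 ^ 40 := hI.le
  have hfR : fR ≤ 2 ^ 40 := by
    have := fval_le hI (fl + fn)
    rwa [fval_hi le_rfl] at this
  have hL88 : fL < 2 ^ 88 := lt_of_le_of_lt hfL (by norm_num)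
  have hR88 : fR < 2 ^ 88 := lt_of_le_of_lt hfR (by norm_num)
  have e1 : ∀ i, dg (2 ^ (88 * fn) * (fR * rep 448)) i =
      if i < fn then 0 else if i - fn < 448 then fR else 0 := by
    intro i
    rw [d2]
    split_ifs with h1 h2
    · rfl
    · rw [d5 _ _ _ hR88, if_pos h2]
    · rw [d5 _ _ _ hR88, if_neg h2]
  have e2 : ∀ i, dg (fN + 2 ^ (88 * fn) * (fR * rep 448)) i =
      if i < fn then dg fN i else if i - fn < 448 then fR else 0 := by
    intro i
    rw [d1]
    · rw [e1]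
      split_ifs with h1 h2
      · rfl
      · rw [d8 fN fn i hI.lt (by omega), zero_add]
      · rw [d8 fN fn i hI.lt (by omega)]
    · intro i
      rw [e1]
      split_ifs with h1 h2
      · exact d9 _ _
      · rw [d8 fN fn i hI.lt (by omega), zero_add]
        exact hR88
      · rw [d8 fN fn i hI.lt (by omega)]
        norm_num
  have e3 : ∀ i, dg (2 ^ (88 * 448) * (fN + 2 ^ (88 * fn) * (fR * rep 448))) i =
      if i < 448 then 0 else if i - 448 < fn then dg fN (i - 448) else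
        if i - 448 - fn < 448 then fR else 0 := by
    intro i
    rw [d2, e2]
  unfold padF
  rw [d1]
  · rw [e3, d5 _ _ _ hL88]
    rcases lt_or_ge i 448 with h1 | h1
    · rw [if_pos h1, if_pos h1, if_pos (by omega), add_zero, fval_lo (by omega)]
    · rw [if_neg (by omega), if_neg (by omega), zero_add]
      rcases lt_or_ge (i - 448) fn with h2 | h2
      · rw [if_pos h2, if_pos (by omega), fval_mid (by omega) (by omega)]
        congr 1
        omega
      · rw [if_neg (by omega)]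
        rcases lt_or_ge i (fn + 896) with h3 | h3
        · rw [if_pos (by omega), if_pos h3, fval_hi (by omega)]
        · rw [if_neg (by omega), if_neg (by omega)]
  · intro i
    rw [e3, d5 _ _ _ hL88]
    split_ifs
    · rw [add_zero]; exact hL88
    · rw [zero_add]; exact d9 _ _
    · rw [zero_add]; exact hR88
    · norm_num

/-- the weighted sums; `t` is the centre -/
def SS (fl fn fN fL fR : ℕ) (t : ℤ) : ℕ :=
  ∑ m ∈ range 449, dg KUn m * fval fl fn fN fL fR (t + 224 - m).toNat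

/-- rounding -/
def rd (x : ℕ) : ℕ := (x + (6 * 2 ^ 40 - 1)) / 2 ^ 40

theorem rd_mono {x y : ℕ} (h : x ≤ y) : rd x ≤ rd y :=
  Nat.div_le_div_right (Nat.add_le_add_right h _)

theorem rd_ge (x : ℕ) : (x : ℝ) / 2 ^ 80 + 4 / 10 ^ 12 ≤ (rd x : ℝ) / 2 ^ 40 := by
  have h1 : x + 5 * 2 ^ 40 ≤ 2 ^ 40 * rd x := by
    unfold rd
    have := Nat.div_add_mod (x + (6 * 2 ^ 40 - 1)) (2 ^ 40)
    have := Nat.mod_lt (x + (6 * 2 ^ 40 - 1)) (show 2 ^ 40 > 0 by norm_num)
    omega
  have h2 : (x : ℝ) + 5 * 2 ^ 40 ≤ 2 ^ 40 * (rd x : ℝ) := by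
    exact_mod_cast h1
  rw [le_div_iff₀ (by positivity)]
  have h3 : ((x : ℝ) / 2 ^ 80 + 4 / 10 ^ 12) * 2 ^ 40 ≤ ((x : ℝ) + 5 * 2 ^ 40) / 2 ^ 40 := by
    rw [le_div_iff₀ (by positivity)]
    norm_num
    linarith
  refine h3.trans ?_
  rw [div_le_iff₀ (by positivity)]
  linarith

theorem SS_anti {fl fn fN fL fR : ℕ} (hI : InvF fl fn fN fL fR) {i j : ℤ} (hij : i ≤ j) :
    SS fl fn fN fL fR j ≤ SS fl fn fN fL fR i := by
  unfold SS
  apply Finset.sum_le_sum
  intro m _
  exact Nat.mul_le_mul_left _ (hI.anti _ _ (by omega))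

/-- the rounded sums -/
def β (fl fn fN fL fR i : ℕ) : ℕ := rd (SS fl fn fN fL fR ((fl : ℤ) - 224 + i))

theorem β_anti {fl fn fN fL fR : ℕ} (hI : InvF fl fn fN fL fR) {i j : ℕ} (hij : i ≤ j) :
    β fl fn fN fL fR j ≤ β fl fn fN fL fR i :=
  rd_mono (SS_anti hI (by omega))

/-- one digit of the convolution -/
theorem dg_mul (hd : S_Dig) (hm : S_DigMul) (ht : S_TabK) {fl fn fN fL fR : ℕ}
    (hI : InvF fl fn fN fL fR) {i : ℕ} (hi : i < fn + 448) :
    dg (padF fn fN fL fR * KUn) (i + 448) = SS fl fn fN fL fR ((fl : ℤ) - 224 + i) := by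
  have hlo := hI.lo
  have hp : ∀ i, dg (padF fn fN fL fR) i ≤ 2 ^ 40 := by
    intro i
    rw [dg_padF hd hI]
    split_ifs
    · exact fval_le hI _
    · norm_num
  have hmul := hm (padF fn fN fL fR) KUn 449 (2 ^ 40) (i + 448) hp ht.1 (by
    have := ht.2.2.2.1
    calc 2 ^ 40 * (∑ m ∈ range 449, dg KUn m) < 2 ^ 40 * 2 ^ 41 :=
          Nat.mul_lt_mul_of_pos_left this (by norm_num)
      _ < 2 ^ 88 := by norm_num)
  refine hmul.trans ?_
  unfold SS
  apply Finset.sum_congr rfl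
  intro m hm'
  have hm2 := Finset.mem_range.mp hm'
  have e1 : m ≤ i + 448 := by omega
  have e2 : i + 448 - m < fn + 896 := by omega
  have e3 : fl + (i + 448 - m) - 448 = ((fl : ℤ) - 224 + i + 224 - m).toNat := by omega
  rw [if_pos e1, dg_padF hd hI, if_pos e2, e3]

theorem dg_bd (hd : S_Dig) (hm : S_DigMul) (ht : S_TabK) {fl fn fN fL fR : ℕ}
    (hI : InvF fl fn fN fL fR) (l : ℕ) : dg (padF fn fN fL fR * KUn) l < 2 ^ 81 := by
  have hp : ∀ i, dg (padF fn fN fL fR) i ≤ 2 ^ 40 := by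
    intro i
    rw [dg_padF hd hI]
    split_ifs
    · exact fval_le hI _
    · norm_num
  have hmul := hm (padF fn fN fL fR) KUn 449 (2 ^ 40) l hp ht.1 (by
    have := ht.2.2.2.1
    calc 2 ^ 40 * (∑ m ∈ range 449, dg KUn m) < 2 ^ 40 * 2 ^ 41 :=
          Nat.mul_lt_mul_of_pos_left this (by norm_num)
      _ < 2 ^ 88 := by norm_num)
  rw [hmul]
  have h1 : ∑ m ∈ range 449, (if m ≤ l then dg KUn m * dg (padF fn fN fL fR) (l - m) else 0) ≤
      ∑ m ∈ range 449, dg KUn m * 2 ^ 40 := by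
    apply Finset.sum_le_sum
    intro m _
    split_ifs
    · exact Nat.mul_le_mul_left _ (hp _)
    · exact Nat.zero_le _
  rw [← Finset.sum_mul] at h1
  have h2 := ht.2.2.2.1
  refine lt_of_le_of_lt h1 ?_
  calc (∑ m ∈ range 449, dg KUn m) * 2 ^ 40 < 2 ^ 41 * 2 ^ 40 :=
        Nat.mul_lt_mul_of_pos_right h2 (by norm_num)
    _ = 2 ^ 81 := by norm_num

theorem dg_rnd (hd : S_Dig) (hr : S_DigRnd) (P M i : ℕ) (hi : i < M)
    (hP : ∀ l, dg P l < 2 ^ 81) :
    dg (rnd (P / 2 ^ (88 * 448) % 2 ^ (88 * M) + (6 * 2 ^ 40 - 1) * rep M) M) i =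
      rd (dg P (i + 448)) := by
  obtain ⟨d1, d2, d3, d4, d5, d6, d7, d8, d9⟩ := hd
  have hc : (6 * 2 ^ 40 - 1 : ℕ) < 2 ^ 88 := by norm_num
  have e1 : ∀ i, dg (P / 2 ^ (88 * 448) % 2 ^ (88 * M)) i = if i < M then dg P (i + 448) else 0 := by
    intro i
    rw [d4, d3]
  have e2 : ∀ i, dg ((6 * 2 ^ 40 - 1) * rep M) i = if i < M then 6 * 2 ^ 40 - 1 else 0 :=
    fun i => d5 _ _ _ hc
  have e3 := d1 (P / 2 ^ (88 * 448) % 2 ^ (88 * M)) ((6 * 2 ^ 40 - 1) * rep M) i (by
    intro i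
    rw [e1, e2]
    split_ifs
    · have := hP (i + 448)
      have h3 : (2 : ℕ) ^ 81 + (6 * 2 ^ 40 - 1) < 2 ^ 88 := by norm_num
      exact lt_trans (Nat.add_lt_add_right this _) h3
    · norm_num)
  have e4 := hr.1 (P / 2 ^ (88 * 448) % 2 ^ (88 * M) + (6 * 2 ^ 40 - 1) * rep M) M i
  rw [if_pos hi, e3, e1, e2, if_pos hi, if_pos hi] at e4
  exact e4

theorem dg_conv (hd : S_Dig) (hm : S_DigMul) (hr : S_DigRnd) (ht : S_TabK) {fl fn fN fL fR : ℕ}
    (hI : InvF fl fn fN fL fR) {i : ℕ} (hi : i < fn + 448) :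
    dg (convF (padF fn fN fL fR) fn) i = β fl fn fN fL fR i := by
  unfold convF β
  rw [dg_rnd hd hr _ _ _ hi (dg_bd hd hm ht hI), dg_mul hd hm ht hI hi]

theorem sum_eq (fl fn fN fL fR : ℕ) (l : ℤ) :
    ∑ m ∈ Finset.Icc (-224 : ℤ) 224, (dg KUn (m + 224).toNat : ℝ) / 2 ^ 40 *
      AF fl fn fN fL fR (l - m) = (SS fl fn fN fL fR (l + 65536) : ℝ) / 2 ^ 80 := by
  unfold SS
  rw [Nat.cast_sum, Finset.sum_div]
  apply Finset.sum_nbij' (fun m : ℤ => (m + 224).toNat) (fun m : ℕ => (m : ℤ) - 224)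
  · intro m hm'
    rw [Finset.mem_Icc] at hm'
    rw [Finset.mem_range]
    omega
  · intro m hm'
    rw [Finset.mem_range] at hm'
    rw [Finset.mem_Icc]
    omega
  · intro m hm'
    rw [Finset.mem_Icc] at hm'
    omega
  · intro m hm'
    omega
  · intro m hm'
    rw [Finset.mem_Icc] at hm'
    unfold AF
    have e2 : (l - m + 65536).toNat = (l + 65536 + 224 - (((m + 224).toNat : ℕ) : ℤ)).toNat := by
      omega
    rw [e2]
    push_cast
    ring

theorem stepf (hd : S_Dig) (hm : S_DigMul) (hr : S_DigRnd) (ht : S_TabK) (hp : S_Pl)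
    (hs : S_SemUp) : S_StepF := by
  intro δ fl fn fN fL fR cap c fn2 hδ hI hcap hc1 hc hfn2 hcf hflc
  have hdg : ∀ i, i < fn + 448 → dg (convF (padF fn fN fL fR) fn) i = β fl fn fN fL fR i :=
    fun i hi => dg_conv hd hm hr ht hI hi
  generalize convF (padF fn fN fL fR) fn = NF at *
  have hlo := hI.lo
  obtain ⟨d1, d2, d3, d4, d5, d6, d7, d8, d9⟩ := hd
  have hnew : ∀ k, dg (NF / 2 ^ (88 * c) % 2 ^ (88 * fn2)) k = if k < fn2 then dg NF (k + c) else 0 := by
    intro k
    rw [d4, d3]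
  clear d1 d2 d3 d4 d5 d6 d7 d8 d9
  have hlt : NF / 2 ^ (88 * c) % 2 ^ (88 * fn2) < 2 ^ (88 * fn2) := Nat.mod_lt _ (by positivity)
  generalize NF / 2 ^ (88 * c) % 2 ^ (88 * fn2) = fN2 at *
  -- new values
  have hfv : ∀ k, fval (fl - 224 + c) fn2 fN2 cap
      (dg NF (c + fn2)) (fl - 224 + c + k) = β fl fn fN fL fR (c + min k fn2) := by
    intro k
    rcases lt_or_ge k fn2 with h | h
    · rw [fval_mid (by omega) (by omega), hnew, if_pos (by omega), hdg _ (by omega),
        min_eq_left h.le]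
      congr 1
      omega
    · rw [fval_hi (by omega), hdg _ (by omega), min_eq_right h]
  have hcapβ : β fl fn fN fL fR (c - 1) ≤ cap := by
    rw [← hdg _ (by omega)]
    exact hc1
  have hanti : ∀ i j, i ≤ j → fval (fl - 224 + c) fn2 fN2 cap
      (dg NF (c + fn2)) j ≤ fval (fl - 224 + c) fn2 fN2 cap
      (dg NF (c + fn2)) i := by
    intro i j hij
    rcases lt_or_ge i (fl - 224 + c) with h1 | h1
    · rw [fval_lo h1]
      rcases lt_or_ge j (fl - 224 + c) with h2 | h2
      · rw [fval_lo h2]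
      · obtain ⟨k, rfl⟩ := Nat.exists_eq_add_of_le h2
        rw [hfv]
        exact (β_anti hI (by omega)).trans hcapβ
    · obtain ⟨k, rfl⟩ := Nat.exists_eq_add_of_le h1
      obtain ⟨k', rfl⟩ := Nat.exists_eq_add_of_le (h1.trans hij)
      rw [hfv, hfv]
      apply β_anti hI
      have : min k fn2 ≤ min k' fn2 := min_le_min (by omega) le_rfl
      omega
  refine ⟨⟨hfn2, by omega, hlt, hanti, hcap⟩, ?_⟩
  intro κ hκ y
  -- the real functions
  have hA01 : ∀ i, 0 ≤ AF fl fn fN fL fR i ∧ AF fl fn fN fL fR i ≤ 1 := by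
    intro i
    unfold AF
    constructor
    · positivity
    · rw [div_le_one (by positivity)]
      exact_mod_cast fval_le hI _
  have hAanti : Antitone (AF fl fn fN fL fR) := by
    intro i j hij
    unfold AF
    apply div_le_div_of_nonneg_right _ (by positivity)
    exact_mod_cast hI.anti _ _ (by omega)
  have hkey : ∀ y, heat (pl δ (AF fl fn fN fL fR)) ((32 * δ) ^ 2) y ≤
      pl δ (fun l => (rd (SS fl fn fN fL fR (l + 65536)) : ℝ) / 2 ^ 40) y := by
    apply hs δ _ (fun l => (rd (SS fl fn fN fL fR (l + 65536)) : ℝ) / 2 ^ 40)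
      (fun m => (dg KUn (m + 224).toNat : ℝ) / 2 ^ 40) hδ hAanti hA01
    · intro m hm'
      rw [le_div_iff₀ (by positivity)]
      exact ht.2.2.2.2.2.1 m hm'
    · intro l
      rw [sum_eq]
      exact rd_ge _
  obtain ⟨p1, p2, p3, p4, p5, p6, p7, p8⟩ := hp δ hδ
  have hcapn := p7 (fun l => (rd (SS fl fn fN fL fR (l + 65536)) : ℝ) / 2 ^ 40)
    (AF (fl - 224 + c) fn2 fN2 cap
      (dg NF (c + fn2))) (((fl - 224 + c : ℕ) : ℤ) - 65536) κ (by
        intro l hl
        unfold AF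
        rw [fval_lo (by omega), le_div_iff₀ (by positivity)]
        exact hκ) (by
        intro l hl
        unfold AF
        rw [fval_lo (by omega), fval_lo (by omega)]) (by
        intro l hl
        unfold AF
        apply div_le_div_of_nonneg_right _ (by positivity)
        obtain ⟨k, hk⟩ : ∃ k : ℕ, l + 65536 = ((fl - 224 + c + k : ℕ) : ℤ) :=
          ⟨(l + 65536 - ((fl - 224 + c : ℕ) : ℤ)).toNat, by omega⟩
        have e1 : (l + 65536).toNat = fl - 224 + c + k := by omega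
        rw [e1, hfv]
        have e2 : rd (SS fl fn fN fL fR (l + 65536)) ≤ β fl fn fN fL fR (c + min k fn2) := by
          unfold β
          apply rd_mono
          apply SS_anti hI
          have := min_le_left k fn2
          omega
        exact_mod_cast e2) (by
        unfold AF
        apply div_le_div_of_nonneg_right _ (by positivity)
        rw [fval_lo (by omega)]
        have e2 : rd (SS fl fn fN fL fR (((fl - 224 + c : ℕ) : ℤ) - 65536 - 1 + 65536)) ≤
            β fl fn fN fL fR (c - 1) := by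
          unfold β
          apply rd_mono
          apply SS_anti hI
          omega
        exact_mod_cast e2.trans hcapβ) (by
        intro l l' hll
        simp only
        apply div_le_div_of_nonneg_right _ (by positivity)
        exact_mod_cast rd_mono (SS_anti hI (by omega))) y
  exact (min_le_min_left κ (hkey y)).trans hcapn

end Pool.Agent.W932.PK.StepF
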