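import Pool.Agent.W841.PK.ChkS
import Pool.Agent.W932.PK.Grid
import Pool.Agent.W932.PK.KapPos

/-!
# PK-STEPG: soundness of the lower step with reflection (MP_350a25_pr)
-/

set_option autoImplicit false
set_option maxRecDepth 10000

namespace Pool.Agent.W932.PK.StepG

open W841.PK hiding dg
open W841.PK.Chk Finset

theorem gval_lo {gl gn gN i : ℕ} (h : i < gl + gn) : gval gl gn gN i = dg gN (i - gl) := by
  unfold gval
  rw [if_neg]
  rw [Nat.ble_eq]
  omega

theorem gval_hi {gl gn gN i : ℕ} (h : gl + gn ≤ i) : gval gl gn gN i = 0 := by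
  unfold gval
  rw [if_pos]
  rw [Nat.ble_eq]
  exact h

theorem gval_le {gl gn gN : ℕ} (hI : InvG gl gn gN) (i : ℕ) : gval gl gn gN i ≤ 2 ^ 40 :=
  (hI.anti 0 i (Nat.zero_le _)).trans hI.le

theorem gval_eq (hd : S_Dig) {gl gn gN i : ℕ} (hI : InvG gl gn gN) :
    gval gl gn gN i = dg gN (i - gl) := by
  obtain ⟨d1, d2, d3, d4, d5, d6, d7, d8, d9⟩ := hd
  have h1 := hI.one
  rcases lt_or_ge i (gl + gn) with h | h
  · exact gval_lo h
  · rw [gval_hi h, d8 gN gn _ hI.lt (by omega)]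

theorem dg_Mb (hd : S_Dig) {gl gn gN : ℕ} (b : ℕ) (hI : InvG gl gn gN) (i : ℕ) :
    dg (Mb gl gn gN b) i = gval gl gn gN (b + i) := by
  rw [gval_eq hd hI]
  obtain ⟨d1, d2, d3, d4, d5, d6, d7, d8, d9⟩ := hd
  unfold Mb
  by_cases hb : b ≤ gl
  · rw [if_pos (by rw [Nat.ble_eq]; exact hb)]
    have e1 : ∀ i, dg (2 ^ (88 * (gl - b)) * gN) i = if i < gl - b then 0 else dg gN (i - (gl - b)) :=
      fun i => d2 _ _ _
    have e2 : ∀ i, dg (dg gN 0 * rep (gl - b)) i = if i < gl - b then dg gN 0 else 0 :=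
      fun i => d5 _ _ _ (d9 _ _)
    have e3 := d1 (2 ^ (88 * (gl - b)) * gN) (dg gN 0 * rep (gl - b)) i (by
      intro i
      rw [e1, e2]
      split_ifs
      · have := d9 gN 0
        omega
      · have := d9 gN (i - (gl - b))
        omega)
    rw [e3, e1, e2]
    split_ifs with h
    · have : b + i - gl = 0 := by omega
      rw [this]
      exact Nat.zero_add _
    · have : b + i - gl = i - (gl - b) := by omega
      rw [this]
      exact Nat.add_zero _
  · rw [if_neg (by rw [Nat.ble_eq]; exact hb), d3]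
    congr 1
    omega

/-- the reflected array -/
def Rv (M : ℕ) : ℕ := rev 224 (M / 2 ^ 88 % 2 ^ (88 * 224)) 0 + 2 ^ (88 * 224) * M

theorem dg_Rv (hd : S_Dig) (hv : S_DigRev) {gl gn gN : ℕ} (b : ℕ) (hI : InvG gl gn gN) (i : ℕ) :
    dg (Rv (Mb gl gn gN b)) i = gval gl gn gN (b + ((i : ℤ) - 224).natAbs) := by
  have hM := dg_Mb hd b hI
  generalize Mb gl gn gN b = M at *
  obtain ⟨d1, d2, d3, d4, d5, d6, d7, d8, d9⟩ := hd
  have e0 : M / 2 ^ 88 = M / 2 ^ (88 * 1) := by rw [Nat.mul_one]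
  have e1 : ∀ i, dg (rev 224 (M / 2 ^ 88 % 2 ^ (88 * 224)) 0) i =
      if i < 224 then dg M (224 - i) else 0 := by
    intro i
    rw [hv.1]
    by_cases h : i < 224
    · have h2 : 224 - 1 - i < 224 := by omega
      have h3 : 224 - 1 - i + 1 = 224 - i := by omega
      rw [if_pos h, if_pos h, d4, if_pos h2, e0, d3, h3]
    · rw [if_neg h, if_neg h]
  have e2 : ∀ i, dg (2 ^ (88 * 224) * M) i = if i < 224 then 0 else dg M (i - 224) :=
    fun i => d2 _ _ _
  have e3 := d1 (rev 224 (M / 2 ^ 88 % 2 ^ (88 * 224)) 0) (2 ^ (88 * 224) * M) i (by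
    intro i
    rw [e1, e2]
    split_ifs
    · exact d9 M (224 - i)
    · rw [Nat.zero_add]
      exact d9 M (i - 224))
  unfold Rv
  rw [e3, e1, e2]
  split_ifs with h
  · rw [hM, Nat.add_zero]
    congr 1
    omega
  · rw [hM, Nat.zero_add]
    congr 1
    omega

/-- the weighted sums -/
def TT (gl gn gN b : ℕ) (i : ℤ) : ℕ :=
  ∑ m ∈ range 449, dg KLn m * gval gl gn gN (b + (i + 224 - m).natAbs)

theorem TT_le (ht : S_TabK) {gl gn gN : ℕ} (b : ℕ) (hI : InvG gl gn gN) (i : ℤ) :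
    TT gl gn gN b i ≤ 2 ^ 80 := by
  unfold TT
  have h1 : ∑ m ∈ range 449, dg KLn m * gval gl gn gN (b + (i + 224 - m).natAbs) ≤
      ∑ m ∈ range 449, dg KLn m * 2 ^ 40 := by
    apply Finset.sum_le_sum
    intro m _
    exact Nat.mul_le_mul_left _ (gval_le hI _)
  rw [← Finset.sum_mul] at h1
  refine h1.trans ?_
  calc (∑ m ∈ range 449, dg KLn m) * 2 ^ 40 ≤ 2 ^ 40 * 2 ^ 40 :=
        Nat.mul_le_mul_right _ ht.2.2.2.2.1
    _ = 2 ^ 80 := by norm_num

theorem dg_mul (hd : S_Dig) (hm : S_DigMul) (hv : S_DigRev) (ht : S_TabK) {gl gn gN : ℕ} (b : ℕ)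
    (hI : InvG gl gn gN) (i : ℕ) :
    dg (Rv (Mb gl gn gN b) * KLn) (i + 448) = TT gl gn gN b i := by
  have hp : ∀ i, dg (Rv (Mb gl gn gN b)) i ≤ 2 ^ 40 := by
    intro i
    rw [dg_Rv hd hv b hI]
    exact gval_le hI _
  have hmul := hm (Rv (Mb gl gn gN b)) KLn 449 (2 ^ 40) (i + 448) hp ht.2.1 (by
    have := ht.2.2.2.2.1
    calc 2 ^ 40 * (∑ m ∈ range 449, dg KLn m) ≤ 2 ^ 40 * 2 ^ 40 :=
          Nat.mul_le_mul_left _ this
      _ < 2 ^ 88 := by norm_num)
  refine hmul.trans ?_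
  unfold TT
  apply Finset.sum_congr rfl
  intro m hm'
  have hm2 := Finset.mem_range.mp hm'
  have e1 : m ≤ i + 448 := by omega
  have e3 : (((i + 448 - m : ℕ) : ℤ) - 224).natAbs = ((i : ℤ) + 224 - m).natAbs := by
    congr 1
    omega
  rw [if_pos e1, dg_Rv hd hv b hI, e3]

theorem dg_conv (hd : S_Dig) (hm : S_DigMul) (hr : S_DigRnd) (hv : S_DigRev) (ht : S_TabK)
    {gl gn gN : ℕ} (b len : ℕ) (hI : InvG gl gn gN) (i : ℕ) :
    dg (convG (Mb gl gn gN b) len) i = if i < len + 224 then TT gl gn gN b i / 2 ^ 40 else 0 := by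
  have e1 : convG (Mb gl gn gN b) len = rnd ((Rv (Mb gl gn gN b) * KLn) / 2 ^ (88 * 448))
    (len + 224) := rfl
  have hmul := dg_mul hd hm hv ht b hI i
  obtain ⟨d1, d2, d3, d4, d5, d6, d7, d8, d9⟩ := hd
  rw [e1, hr.1, d3, hmul]

theorem sum_eq (gl gn gN b : ℕ) (l : ℤ) :
    ∑ m ∈ Finset.Icc (-224 : ℤ) 224, (dg KLn (m + 224).toNat : ℝ) / 2 ^ 40 *
      AG gl gn gN (((b : ℤ) - 65536) + |l - m - ((b : ℤ) - 65536)|) =
      (TT gl gn gN b (l - ((b : ℤ) - 65536)) : ℝ) / 2 ^ 80 := by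
  unfold TT
  rw [Nat.cast_sum, Finset.sum_div]
  apply Finset.sum_nbij' (fun m : ℤ => (m + 224).toNat) (fun m : ℕ => (m : ℤ) - 224)
  · intro m hm'
    rw [Finset.mem_Icc] at hm'
    rw [Finset.mem_range]
    omega
  · intro m hm'
    rw [Finset.mem_range] at hm'
    rw [Finset.mem_Icc]
    omega
  · intro m hm'
    rw [Finset.mem_Icc] at hm'
    omega
  · intro m hm'
    omega
  · intro m hm'
    rw [Finset.mem_Icc] at hm'
    unfold AG
    have e2 : (((b : ℤ) - 65536) + |l - m - ((b : ℤ) - 65536)| + 65536).toNat =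
        b + (l - ((b : ℤ) - 65536) + 224 - (((m + 224).toNat : ℕ) : ℤ)).natAbs := by
      rw [Int.abs_eq_natAbs]
      omega
    rw [e2]
    push_cast
    ring

theorem heat_nonneg {δ : ℝ} (hδ : 0 < δ) {A : ℤ → ℝ} (hA : ∀ i, 0 ≤ A i ∧ A i ≤ 1) (θ y : ℝ) :
    0 ≤ heat (pl δ A) θ y := by
  unfold heat
  apply MeasureTheory.integral_nonneg
  intro x
  exact mul_nonneg (Grid.pl_bd hδ hA _).1 (KapPos.gd_pos x).le

theorem AG01 {gl gn gN : ℕ} (hI : InvG gl gn gN) (i : ℤ) :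
    0 ≤ AG gl gn gN i ∧ AG gl gn gN i ≤ 1 := by
  unfold AG
  have h := gval_le hI (i + 65536).toNat
  generalize gval gl gn gN (i + 65536).toNat = x at *
  have h' : (x : ℝ) ≤ 2 ^ 40 := by exact_mod_cast h
  constructor
  · exact div_nonneg (Nat.cast_nonneg _) (by norm_num)
  · rw [div_le_one (by norm_num)]
    exact h'

attribute [local irreducible] TT

theorem stepg (hd : S_Dig) (hm : S_DigMul) (hr : S_DigRnd) (hv : S_DigRev) (ht : S_TabK)
    (hp : S_Pl) (hs : S_SemLow) : S_StepG := by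
  intro δ gl gn gN b h hδ hI h11 hanti hh hb
  have hdg := dg_conv hd hm hr hv ht b (Mlen gl gn b) hI
  generalize convG (Mb gl gn gN b) (Mlen gl gn b) = CG at *
  have hTle := TT_le ht b hI
  have hTK := ht.2.2.2.2.2.2
  have hle : ∀ i : ℕ, dg CG i ≤ TT gl gn gN b i / 2 ^ 40 := by
    intro i
    rw [hdg]
    split_ifs
    · exact le_rfl
    · exact Nat.zero_le _
  have hle40 : ∀ i : ℕ, dg CG i ≤ 2 ^ 40 := by
    intro i
    refine (hle i).trans ?_
    have := Nat.div_le_div_right (c := 2 ^ 40) (hTle i)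
    refine this.trans (le_of_eq ?_)
    norm_num
  obtain ⟨d1, d2, d3, d4, d5, d6, d7, d8, d9⟩ := hd
  -- monotonicity
  have hN1 : CG % 2 ^ (88 * (h + 1)) < 2 ^ (88 * (h + 1)) := Nat.mod_lt _ (by positivity)
  have hN2 : CG % 2 ^ (88 * h) < 2 ^ (88 * h) := Nat.mod_lt _ (by positivity)
  have hdN1 : ∀ i, dg (CG % 2 ^ (88 * (h + 1))) i = if i < h + 1 then dg CG i else 0 :=
    fun i => d4 _ _ _
  have hdN2 : ∀ i, dg (CG % 2 ^ (88 * h)) i = if i < h then dg CG i else 0 := fun i => d4 _ _ _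
  have hmono1 : ∀ i, i < h → dg CG (i + 1) ≤ dg CG i := by
    intro i hi
    have h1 := hr.2 (CG % 2 ^ (88 * (h + 1))) (h + 1) i hN1 (by
      intro i
      rw [hdN1]
      split_ifs
      · have := hle40 i
        have h3 : (2 : ℕ) ^ 40 < 2 ^ 87 := by norm_num
        omega
      · norm_num) hanti (by omega)
    rw [hdN1, hdN1, if_pos (by omega), if_pos (by omega)] at h1
    exact h1
  have hmono : ∀ i j, i ≤ j → j ≤ h → dg CG j ≤ dg CG i := by
    intro i j hij
    induction j, hij using Nat.le_induction with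
    | base => intro _; exact le_rfl
    | succ j _ ih =>
      intro hj
      exact (hmono1 j (by omega)).trans (ih (by omega))
  have h11' : ∀ i, i ≤ h → 11 ≤ dg CG i := fun i hi => h11.trans (hmono i h hi le_rfl)
  have hG2 : ∀ i, dg (CG % 2 ^ (88 * h) - 11 * rep h) i = if i < h then dg CG i - 11 else 0 := by
    intro i
    rw [d6 _ _ _ _ hN2 (by
      intro j hj
      rw [hdN2, if_pos hj]
      exact h11' j hj.le), hdN2]
    split_ifs <;> rfl
  have hG2lt := d7 _ h 11 hN2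
  generalize CG % 2 ^ (88 * h) - 11 * rep h = gN2 at *
  clear d1 d2 d3 d4 d5 d6 d7 d8 d9
  have hgv : ∀ n, n < b + h → gval b h gN2 n = dg CG (n - b) - 11 := by
    intro n hn
    rw [gval_lo hn, hG2, if_pos (by omega)]
  have hInv : InvG b h gN2 := by
    refine ⟨hh, hb, hG2lt, ?_, ?_⟩
    · intro i j hij
      rcases lt_or_ge j (b + h) with hj | hj
      · rw [hgv j hj, hgv i (by omega)]
        exact Nat.sub_le_sub_right (hmono _ _ (by omega) (by omega)) 11
      · rw [gval_hi hj]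
        exact Nat.zero_le _
    · rw [hgv 0 (by omega)]
      have := hle40 (0 - b)
      omega
  refine ⟨hInv, ?_⟩
  intro y
  obtain ⟨p1, p2, p3, p4, p5, p6, p7, p8⟩ := hp δ hδ
  set b' : ℤ := (b : ℤ) - 65536 with hb'
  have hB : ((b : ℝ) - 65536) * δ = (b' : ℝ) * δ := by
    rw [hb']
    push_cast
    ring
  rw [hB]
  set Ar : ℤ → ℝ := fun i => AG gl gn gN (b' + |i - b'|) with hAr
  have hrefl : refl (b' * δ) (pl δ (AG gl gn gN)) = pl δ Ar := by
    funext z
    exact p5 _ _ _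
  rw [hrefl]
  have hAr01 : ∀ i, 0 ≤ Ar i ∧ Ar i ≤ 1 := fun i => AG01 hI _
  have hlow : ∀ y, b' * δ ≤ y → pl δ (fun l => (((TT gl gn gN b (l - b') / 2 ^ 40 : ℕ) : ℝ) - 11) /
      2 ^ 40) y ≤ heat (pl δ Ar) ((32 * δ) ^ 2) y := by
    apply hs δ Ar (fun l => (((TT gl gn gN b (l - b') / 2 ^ 40 : ℕ) : ℝ) - 11) / 2 ^ 40)
      (fun m => (dg KLn (m + 224).toNat : ℝ) / 2 ^ 40) b' hδ hAr01
    · intro m hm'
      rw [div_le_iff₀ (by positivity)]
      exact hTK m hm'
    · intro l _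
      have e1 := sum_eq gl gn gN b l
      rw [← hb'] at e1
      simp only [hAr]
      rw [e1]
      generalize TT gl gn gN b (l - b') = T
      have h1 : (((T / 2 ^ 40 : ℕ) : ℕ) : ℝ) ≤ (T : ℝ) / 2 ^ 40 := by
        rw [le_div_iff₀ (by positivity)]
        exact_mod_cast Nat.div_mul_le_self T (2 ^ 40)
      have h2 : (((T / 2 ^ 40 : ℕ) : ℝ) - 11) / 2 ^ 40 ≤ ((T : ℝ) / 2 ^ 40 - 11) / 2 ^ 40 := by
        apply div_le_div_of_nonneg_right _ (by positivity)
        linarith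
      refine h2.trans ?_
      have h3 : ((T : ℝ) / 2 ^ 40 - 11) / 2 ^ 40 = (T : ℝ) / 2 ^ 80 - 11 / 2 ^ 40 := by ring
      rw [h3]
      have h4 : (1 : ℝ) / 10 ^ 11 ≤ 11 / 2 ^ 40 := by norm_num
      linarith
  have hcut := p8 (fun l => (((TT gl gn gN b (l - b') / 2 ^ 40 : ℕ) : ℝ) - 11) / 2 ^ 40)
    (AG b h gN2) b' (b' + h) (fun y => heat (pl δ Ar) ((32 * δ) ^ 2) y)
    (fun y => heat_nonneg hδ hAr01 _ _) hlow (by
      intro l h1 h2
      unfold AG
      apply div_le_div_of_nonneg_right _ (by positivity)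
      have e1 : (l + 65536).toNat < b + h := by omega
      rw [hgv _ e1]
      obtain ⟨i, hi⟩ : ∃ i : ℕ, l - b' = i := ⟨(l - b').toNat, by omega⟩
      have e2 : (l + 65536).toNat - b = i := by omega
      rw [e2, hi]
      have e3 := hle i
      have e4 := h11' i (by omega)
      rw [Nat.cast_sub e4]
      have e5 : (dg CG i : ℝ) ≤ ((TT gl gn gN b i / 2 ^ 40 : ℕ) : ℝ) := by exact_mod_cast e3
      push_cast at e5 ⊢
      linarith) (by
      intro l hl
      unfold AG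
      rw [gval_hi (by omega)]
      simp) (by
      have e6 : b' + (h : ℤ) - b' = ((h : ℕ) : ℤ) := by ring
      have e3 := h11.trans (hle h)
      rw [← e6] at e3
      generalize TT gl gn gN b (b' + (h : ℤ) - b') / 2 ^ 40 = T at e3 ⊢
      have e5 : ((11 : ℕ) : ℝ) ≤ ((T : ℕ) : ℝ) := by exact_mod_cast e3
      push_cast at e5
      exact div_nonneg (by linarith) (by positivity))
  rw [p6 (AG b h gN2) b' y (by
    intro i hi
    unfold AG
    rw [hgv _ (by omega), hgv _ (by omega)]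
    congr 4
    omega)]
  exact hcut _ (le_max_right _ _)

end Pool.Agent.W932.PK.StepG
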