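import Pool.Agent.W841.PK.Num

/-!
# PK-PL: piecewise linear functions (MP_350a25_pr)
-/

set_option autoImplicit false

namespace Pool.Agent.W932.PK.PL

open W841.PK

theorem pl_node {δ : ℝ} (hδ : 0 < δ) (A : ℤ → ℝ) (l : ℤ) : pl δ A (l * δ) = A l := by
  unfold pl
  have h : (l : ℝ) * δ / δ = l := by field_simp
  rw [h]
  simp

theorem pl_cell {δ : ℝ} (hδ : 0 < δ) (A : ℤ → ℝ) (l : ℤ) (s : ℝ) (h0 : 0 ≤ s) (h1 : s ≤ 1) :
    pl δ A ((l + s) * δ) = (1 - s) * A l + s * A (l + 1) := by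
  rcases lt_or_eq_of_le h1 with h | h
  · unfold pl
    have h2 : ((l : ℝ) + s) * δ / δ = l + s := by field_simp
    have h3 : ⌊(l : ℝ) + s⌋ = l := by
      rw [Int.floor_eq_iff]
      constructor <;> linarith
    rw [h2, h3]
    ring
  · subst h
    have h2 : ((l : ℝ) + 1) = ((l + 1 : ℤ) : ℝ) := by push_cast; ring
    rw [h2, pl_node hδ]
    ring

theorem repr {δ : ℝ} (hδ : 0 < δ) (y : ℝ) : ∃ (l : ℤ) (s : ℝ), 0 ≤ s ∧ s < 1 ∧ y = (l + s) * δ := by
  refine ⟨⌊y / δ⌋, Int.fract (y / δ), Int.fract_nonneg _, Int.fract_lt_one _, ?_⟩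
  rw [Int.floor_add_fract]
  field_simp

theorem pl_mono {δ : ℝ} (hδ : 0 < δ) {A B : ℤ → ℝ} {l : ℤ} {s : ℝ} (h0 : 0 ≤ s) (h1 : s ≤ 1)
    (ha : A l ≤ B l) (hb : A (l + 1) ≤ B (l + 1)) :
    pl δ A ((l + s) * δ) ≤ pl δ B ((l + s) * δ) := by
  rw [pl_cell hδ A l s h0 h1, pl_cell hδ B l s h0 h1]
  have := mul_le_mul_of_nonneg_left ha (sub_nonneg.mpr h1)
  have := mul_le_mul_of_nonneg_left hb h0
  linarith

theorem pl_anti {δ : ℝ} (hδ : 0 < δ) {A : ℤ → ℝ} (hA : Antitone A)
    (h01 : ∀ i, 0 ≤ A i ∧ A i ≤ 1) {x y : ℝ} (hxy : x ≤ y) :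
    pl δ A y ≤ pl δ A x ∧ pl δ A x - pl δ A y ≤ 1 / δ * (y - x) := by
  obtain ⟨l, s, h0, h1, rfl⟩ := repr hδ x
  obtain ⟨l', s', h0', h1', rfl⟩ := repr hδ y
  rw [pl_cell hδ A l s h0 h1.le, pl_cell hδ A l' s' h0' h1'.le]
  have hle : (l : ℝ) + s ≤ l' + s' := le_of_mul_le_mul_right hxy hδ
  have e1 : 1 / δ * (((l' : ℝ) + s') * δ - (l + s) * δ) = (l' + s') - (l + s) := by field_simp
  rw [e1]
  have hll : l ≤ l' := by
    have : (l : ℝ) < l' + 1 := by linarith
    have : l < l' + 1 := by exact_mod_cast this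
    omega
  have a1 : A (l + 1) ≤ A l := hA (by omega)
  have a2 : A (l' + 1) ≤ A l' := hA (by omega)
  obtain ⟨b1, b2⟩ := h01 l
  obtain ⟨b3, b4⟩ := h01 (l + 1)
  obtain ⟨b5, b6⟩ := h01 l'
  obtain ⟨b7, b8⟩ := h01 (l' + 1)
  rcases hll.eq_or_lt with h | h
  · subst h
    have hs : s ≤ s' := by linarith
    constructor
    · nlinarith
    · nlinarith
  · have a3 : A l' ≤ A (l + 1) := hA (by omega)
    have a4 : A (l + 1) - A l' ≤ (l' : ℝ) - l - 1 := by
      rcases (show l + 1 = l' ∨ l + 2 ≤ l' by omega) with h5 | h5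
      · subst h5
        push_cast
        linarith
      · have : (l : ℝ) + 2 ≤ l' := by exact_mod_cast h5
        linarith
    constructor
    · nlinarith
    · nlinarith

theorem plthm : S_Pl := by
  intro δ hδ
  refine ⟨pl_node hδ, pl_cell hδ, ?_, ?_, ?_, ?_, ?_, ?_⟩
  · intro A B h y
    obtain ⟨l, s, h0, h1, rfl⟩ := repr hδ y
    exact pl_mono hδ h0 h1.le (h _) (h _)
  · intro A hA h01
    refine ⟨fun x y hxy => (pl_anti hδ hA h01 hxy).1, ?_, 1 / δ, ?_⟩
    · intro y
      obtain ⟨l, s, h0, h1, rfl⟩ := repr hδ y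
      rw [pl_cell hδ A l s h0 h1.le]
      obtain ⟨b1, b2⟩ := h01 l
      obtain ⟨b3, b4⟩ := h01 (l + 1)
      constructor
      · have := mul_nonneg (sub_nonneg.mpr h1.le) b1
        have := mul_nonneg h0 b3
        linarith
      · nlinarith
    · intro x y
      rcases le_total x y with h | h
      · obtain ⟨c1, c2⟩ := pl_anti hδ hA h01 h
        rw [abs_of_nonneg (by linarith), abs_of_nonpos (by linarith)]
        linarith
      · obtain ⟨c1, c2⟩ := pl_anti hδ hA h01 h
        rw [abs_of_nonpos (by linarith), abs_of_nonneg (by linarith)]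
        linarith
  · intro A b y
    obtain ⟨l, s, h0, h1, rfl⟩ := repr hδ y
    unfold W841.PK.refl
    rw [pl_cell hδ _ l s h0 h1.le]
    rcases le_or_gt b l with h | h
    · have hbl : (b : ℝ) ≤ l := by exact_mod_cast h
      have e1 : ((l : ℝ) + s) * δ - b * δ = (l + s - b) * δ := by ring
      have e2 : 0 ≤ ((l : ℝ) + s - b) * δ := mul_nonneg (by linarith) hδ.le
      rw [e1, abs_of_nonneg e2]
      have e3 : (b : ℝ) * δ + (l + s - b) * δ = (l + s) * δ := by ring
      rw [e3, pl_cell hδ A l s h0 h1.le, abs_of_nonneg (by omega), abs_of_nonneg (by omega)]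
      congr 3
      · ring
      · ring_nf
    · have hbl : (l : ℝ) + 1 ≤ b := by exact_mod_cast h
      have e1 : ((l : ℝ) + s) * δ - b * δ = (l + s - b) * δ := by ring
      have e2 : ((l : ℝ) + s - b) * δ ≤ 0 := mul_nonpos_of_nonpos_of_nonneg (by linarith) hδ.le
      rw [e1, abs_of_nonpos e2]
      have e3 : (b : ℝ) * δ + -((l + s - b) * δ) = (((2 * b - l - 1 : ℤ) : ℝ) + (1 - s)) * δ := by
        push_cast
        ring
      rw [e3, pl_cell hδ A _ (1 - s) (by linarith) (by linarith), abs_of_nonpos (by omega),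
        abs_of_nonpos (by omega)]
      have f1 : 2 * b - l - 1 + 1 = b + -(l - b) := by ring
      have f2 : 2 * b - l - 1 = b + -(l + 1 - b) := by ring
      rw [f1, f2]
      ring
  · intro A b y h
    rcases le_or_gt (b * δ) y with hy | hy
    · rw [max_eq_left hy]
    · rw [max_eq_right hy.le, pl_node hδ]
      obtain ⟨l, s, h0, h1, rfl⟩ := repr hδ y
      rw [pl_cell hδ A l s h0 h1.le]
      have h2 : (l : ℝ) + s < b := lt_of_mul_lt_mul_right hy hδ.le
      have h3 : l < b := by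
        have : (l : ℝ) < b := by linarith
        exact_mod_cast this
      rw [h l h3.le, h (l + 1) (by omega)]
      ring
  · intro A A' c κ h1 h2 h3 h4 hA y
    obtain ⟨l, s, hs0, hs1, rfl⟩ := repr hδ y
    rcases (show l + 1 ≤ c - 1 ∨ l = c - 1 ∨ c ≤ l by omega) with h | h | h
    · apply min_le_of_left_le
      rw [pl_cell hδ A' l s hs0 hs1.le, h2 l (by omega), h2 (l + 1) (by omega)]
      have := h1 (c - 1) (by omega)
      linarith
    · apply min_le_of_right_le
      apply pl_mono hδ hs0 hs1.le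
      · rw [h]; exact h4
      · exact h3 _ (by omega)
    · apply min_le_of_right_le
      exact pl_mono hδ hs0 hs1.le (h3 _ (by omega)) (h3 _ (by omega))
  · intro A A' b h f hf h1 h2 h3 h4 y hy
    obtain ⟨l, s, hs0, hs1, rfl⟩ := repr hδ y
    have hb : b ≤ l := by
      have g1 : (b : ℝ) ≤ l + s := le_of_mul_le_mul_right hy hδ
      have g2 : (b : ℝ) < l + 1 := by linarith
      have g3 : b < l + 1 := by exact_mod_cast g2
      omega
    rcases lt_or_ge l h with g | g
    · refine le_trans ?_ (h1 _ hy)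
      apply pl_mono hδ hs0 hs1.le
      · exact h2 l hb g
      · rcases (show l + 1 < h ∨ l + 1 = h by omega) with g1 | g1
        · exact h2 _ (by omega) g1
        · rw [g1, h3 h le_rfl]
          exact h4
    · rw [pl_cell hδ A' l s hs0 hs1.le, h3 l g, h3 (l + 1) (by omega)]
      simp only [mul_zero, add_zero]
      exact hf _

end Pool.Agent.W932.PK.PL
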